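import Pool.Agent.Lib_helper79.EU.Final
import Pool.Agent.Lib_helper79.EU.Minor
import Pool.Agent.Lib_helper79.EU.Slender

set_option autoImplicit false

/-! Every subcontraction-closed universal class of graphs contains all graphs. -/

universe u

namespace Pool.Agent.Results.MP_e19d8e_co.ContainsAllGraphs

open Cardinal

/-- A contraction of the graph `X` onto the graph `Z`: a surjective map `f` of the vertex sets such
that (i) distinct `u`, `v` are adjacent in `Z` exactly when `u = f x`, `v = f y` for some adjacent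
pair `x`, `y` of `X`, and (ii) `X` induces a connected graph on every fibre of `f`. -/
structure IsContraction {V W : Type u} (X : SimpleGraph V) (Z : SimpleGraph W) (f : V → W) :
    Prop where
  surj : Function.Surjective f
  adj : ∀ u v : W, u ≠ v → (Z.Adj u v ↔ ∃ x y : V, X.Adj x y ∧ f x = u ∧ f y = v)
  conn : ∀ u : W, (X.induce (f ⁻¹' {u})).Connected

/-- `Y` is a subcontraction of `X`: it is (isomorphic to) a, not necessarily induced, subgraph of
some contraction of `X`. -/
def IsSubcontraction {U V : Type u} (Y : SimpleGraph U) (X : SimpleGraph V) : Prop :=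
  ∃ (W : Type u) (Z : SimpleGraph W) (f : V → W), IsContraction X Z f ∧
    ∃ H : Z.Subgraph, Nonempty (Y ≃g H.coe)

/-- A class of graphs, closed under isomorphism. -/
structure GraphClass where
  Mem : ∀ {V : Type u}, SimpleGraph V → Prop
  iso : ∀ {V W : Type u} (X : SimpleGraph V) (Y : SimpleGraph W), Nonempty (X ≃g Y) → Mem X → Mem Y

/-- The class contains every subcontraction of every member. -/
def SubcontractionClosed (C : GraphClass.{u}) : Prop :=
  ∀ {U V : Type u} (X : SimpleGraph V) (Y : SimpleGraph U), C.Mem X → IsSubcontraction Y X → C.Mem Y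

/-- Every group is isomorphic to the full automorphism group of some member of the class. -/
def Universal (C : GraphClass.{u}) : Prop :=
  ∀ (G : Type u) [Group G], ∃ (V : Type u) (X : SimpleGraph V), C.Mem X ∧
    Nonempty ((X ≃g X) ≃* G)

open Pool.Agent.Lib_helper79.EU in
/-- A graph whose automorphism group is free abelian of large rank has large linked sets of
vertices. -/
theorem exists_linked (μ ρ τ : Cardinal.{u}) (hc : Cards μ ρ τ) (I : Type u) (hI : τ < #I)
    (V : Type u) (X : SimpleGraph V) (e : Multiplicative (I →₀ ℤ) ≃* (X ≃g X)) :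
    ∃ U : Set V, (∀ x ∈ U, ∀ y ∈ U, Lk X μ x y) ∧ μ < #U := by
  classical
  by_contra hcon
  push Not at hcon
  have hNM : NM X μ := hcon
  let _ : MulAction (Multiplicative (I →₀ ℤ)) V :=
    { smul := fun g x => e g x
      one_smul := fun x => by
        show e 1 x = x
        rw [map_one]; rfl
      mul_smul := fun a b x => by
        show e (a * b) x = e a (e b x)
        rw [map_mul]; rfl }
  have hsm : ∀ (g : Multiplicative (I →₀ ℤ)) (x : V), g • x = e g x := fun _ _ => rfl
  have hfaith : ∀ g : Multiplicative (I →₀ ℤ), (∀ x : V, g • x = x) → g = 1 := by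
    intro g hg
    apply e.injective
    rw [map_one]
    ext x
    exact hg x
  have hE : Exact X (Multiplicative (I →₀ ℤ)) :=
    { adj := fun g x y hxy => by
        rw [hsm, hsm]
        exact (e g).map_adj_iff.mpr hxy
      ex := fun f => ⟨e.symm f, fun x => by
        rw [hsm, MulEquiv.apply_symm_apply]⟩
      tf := fun g hg => by
        have h1 : g * g = 1 := hfaith _ (fun x => by rw [mul_smul]; exact hg x)
        have h2 : g = 1 := by
          have h3 : Multiplicative.toAdd g + Multiplicative.toAdd g = 0 := h1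
          have h4 : Multiplicative.toAdd g = 0 := by
            ext i
            have h5 := congrArg (fun f : I →₀ ℤ => f i) h3
            simp only [Finsupp.add_apply, Finsupp.zero_apply] at h5
            rw [Finsupp.zero_apply]
            omega
          exact h4
        intro x
        rw [h2, one_smul] }
  have hsl : ∀ φ : Multiplicative (ℕ → ℤ) →* Multiplicative (I →₀ ℤ),
      ¬ ∀ n : ℕ, φ (Multiplicative.ofAdd (Pi.single n 1)) ≠ 1 := by
    intro φ hφ
    exact slender (AddMonoidHom.toMultiplicative.symm φ) (fun n hn => hφ n hn)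
  have hle := card_group_le hE hfaith hsl hc hNM
  have hge : #I ≤ #(Multiplicative (I →₀ ℤ)) := by
    apply Cardinal.mk_le_of_injective (f := fun i : I =>
      Multiplicative.ofAdd (Finsupp.single i (1 : ℤ)))
    intro i j hij
    have h : Finsupp.single i (1 : ℤ) = Finsupp.single j 1 := Multiplicative.ofAdd.injective hij
    exact Finsupp.single_left_injective one_ne_zero h
  exact absurd (hge.trans hle) (not_le.mpr hI)

open Pool.Agent.Lib_helper79.EU in
/-- Connected, pairwise disjoint, pairwise adjacent branch sets give a complete subcontraction. -/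
theorem contraction_of_branch {V : Type u} (X : SimpleGraph V) (T : Type u) (B : T → Set V)
    (hBne : ∀ t, (B t).Nonempty)
    (hBconn : ∀ t, ∀ x ∈ B t, ∀ y ∈ B t, Rch X (B t) x y)
    (hBdisj : ∀ s t, s ≠ t → Disjoint (B s) (B t))
    (hBadj : ∀ s t, s ≠ t → ∃ x ∈ B s, ∃ y ∈ B t, X.Adj x y) :
    ∃ (W : Type u) (Z : SimpleGraph W) (f : V → W), IsContraction X Z f ∧
      (⊤ : SimpleGraph T).IsContained Z := by
  classical
  let idx : V → T ⊕ V := fun v => if h : ∃ t, v ∈ B t then Sum.inl h.choose else Sum.inr v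
  have hidx1 : ∀ t, ∀ v ∈ B t, idx v = Sum.inl t := by
    intro t v hv
    have h : ∃ t, v ∈ B t := ⟨t, hv⟩
    have h1 : idx v = Sum.inl h.choose := dif_pos h
    rw [h1]
    congr 1
    by_contra hne
    exact Set.disjoint_left.mp (hBdisj _ _ hne) h.choose_spec hv
  have hidx2 : ∀ v, (∀ t, v ∉ B t) → idx v = Sum.inr v := by
    intro v hv
    exact dif_neg (fun ⟨t, ht⟩ => hv t ht)
  let W : Type u := Set.range idx
  let f : V → W := fun v => ⟨idx v, v, rfl⟩
  have hff : ∀ x y, f x = f y ↔ idx x = idx y := fun x y => Subtype.ext_iff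
  let Z : SimpleGraph W :=
    { Adj := fun a b => a ≠ b ∧ ∃ x y : V, X.Adj x y ∧ f x = a ∧ f y = b
      symm := ⟨fun a b ⟨hne, x, y, hxy, hx, hy⟩ => ⟨hne.symm, y, x, hxy.symm, hy, hx⟩⟩
      loopless := ⟨fun a h => h.1 rfl⟩ }
  refine ⟨W, Z, f, ⟨?_, ?_, ?_⟩, ?_⟩
  · rintro ⟨w, v, rfl⟩
    exact ⟨v, rfl⟩
  · intro a b hab
    exact ⟨fun h => h.2, fun h => ⟨hab, h⟩⟩
  · rintro ⟨w, v, rfl⟩
    have hne : Nonempty (f ⁻¹' {(⟨idx v, v, rfl⟩ : W)}) := ⟨⟨v, rfl⟩⟩
    rw [SimpleGraph.connected_iff]
    refine ⟨?_, hne⟩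
    rintro ⟨x, hx⟩ ⟨y, hy⟩
    have hx' : idx x = idx v := (hff x v).mp hx
    have hy' : idx y = idx v := (hff y v).mp hy
    by_cases hv : ∃ t, v ∈ B t
    · obtain ⟨t, ht⟩ := hv
      have hBt : ∀ z, idx z = idx v → z ∈ B t := by
        intro z hz
        rw [hidx1 t v ht] at hz
        by_cases hz2 : ∃ s, z ∈ B s
        · obtain ⟨s, hs⟩ := hz2
          rw [hidx1 s z hs] at hz
          rw [← Sum.inl_injective hz]; exact hs
        · push Not at hz2
          rw [hidx2 z hz2] at hz
          exact absurd hz (by simp)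
      have hfib : ∀ z, z ∈ B t → z ∈ f ⁻¹' {(⟨idx v, v, rfl⟩ : W)} := by
        intro z hz
        show f z = f v
        rw [hff, hidx1 t z hz, hidx1 t v ht]
      have hr := hBconn t x (hBt x hx') y (hBt y hy')
      have key : ∀ z, Rch X (B t) x z → ∀ hz : z ∈ f ⁻¹' {(⟨idx v, v, rfl⟩ : W)},
          (X.induce (f ⁻¹' {(⟨idx v, v, rfl⟩ : W)})).Reachable ⟨x, hx⟩ ⟨z, hz⟩ := by
        intro z hz
        induction hz with
        | refl => intro _; exact SimpleGraph.Reachable.refl _
        | @tail b c hab hbc ih =>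
          intro hcz
          refine (ih (hfib b hbc.2.1)).trans (SimpleGraph.Adj.reachable ?_)
          exact hbc.1
      exact key y hr hy
    · push Not at hv
      have hsing : ∀ z, idx z = idx v → z = v := by
        intro z hz
        rw [hidx2 v hv] at hz
        by_cases hz2 : ∃ s, z ∈ B s
        · obtain ⟨s, hs⟩ := hz2
          rw [hidx1 s z hs] at hz
          exact absurd hz (by simp)
        · push Not at hz2
          rw [hidx2 z hz2] at hz
          exact Sum.inr_injective hz
      have hxv := hsing x hx'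
      have hyv := hsing y hy'
      subst hxv
      subst hyv
      exact SimpleGraph.Reachable.refl _
  · choose b hb using hBne
    have hinj : Function.Injective (fun t => f (b t)) := by
      intro s t hst
      have h1 : idx (b s) = idx (b t) := (hff _ _).mp hst
      rw [hidx1 s _ (hb s), hidx1 t _ (hb t)] at h1
      exact Sum.inl_injective h1
    refine ⟨⟨⟨fun t => f (b t), ?_⟩, hinj⟩⟩
    intro s t hst
    have hne : s ≠ t := hst.ne
    obtain ⟨x, hx, y, hy, hxy⟩ := hBadj s t hne
    refine ⟨fun h => hne (hinj h), x, y, hxy, ?_, ?_⟩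
    · rw [hff, hidx1 s _ (hb s), hidx1 s _ hx]
    · rw [hff, hidx1 t _ (hb t), hidx1 t _ hy]

/-- A graph contained in a contraction of `X` is a subcontraction of `X`. -/
theorem isSubcontraction_of {U V W : Type u} {Y : SimpleGraph U} {X : SimpleGraph V}
    {Z : SimpleGraph W} {f : V → W} (hf : IsContraction X Z f) (h : Y.IsContained Z) :
    IsSubcontraction Y X := by
  obtain ⟨c⟩ := h
  exact ⟨W, Z, f, hf, c.toSubgraph, ⟨c.isoToSubgraph⟩⟩

/-- For every infinite cardinal `κ`, every graph whose automorphism group is isomorphic to a free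
abelian group of rank `> 2 ^ 2 ^ κ` has the complete graph `K_κ` as a subcontraction. -/
theorem complete_subcontraction (T : Type u) (hT : ℵ₀ ≤ #T) (I : Type u)
    (hI : (2 : Cardinal.{u}) ^ ((2 : Cardinal.{u}) ^ #T) < #I)
    (V : Type u) (X : SimpleGraph V) (he : Nonempty ((X ≃g X) ≃* Multiplicative (I →₀ ℤ))) :
    ∃ (W : Type u) (Z : SimpleGraph W) (f : V → W), IsContraction X Z f ∧
      (⊤ : SimpleGraph T).IsContained Z := by
  obtain ⟨e⟩ := he
  have hcards : Pool.Agent.Lib_helper79.EU.Cards (#T) (2 ^ #T) (2 ^ ((2 : Cardinal.{u}) ^ #T)) :=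
    { hμ := hT
      hμρ := (Cardinal.cantor _).le
      hρτ := Cardinal.cantor _
      hρ := by
        rw [← Cardinal.power_mul, Cardinal.mul_eq_self hT]
      hτ := by
        rw [← Cardinal.power_mul, Cardinal.mul_eq_self (hT.trans (Cardinal.cantor _).le)] }
  obtain ⟨U, hU, hUc⟩ := exists_linked _ _ _ hcards I hI V X e.symm
  obtain ⟨B, hBne, hBconn, hBdisj, hBadj⟩ :=
    Pool.Agent.Lib_helper79.EU.exists_minor hT U hU hUc T le_rfl
  exact contraction_of_branch X T B hBne hBconn hBdisj hBadj

/-- **Every subcontraction-closed universal class of graphs contains all graphs.** -/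
theorem result :
    ∀ C : GraphClass.{u}, SubcontractionClosed C → Universal C →
      ∀ (V : Type u) (X : SimpleGraph V), C.Mem X := by
  classical
  intro C hclosed huniv V0 Y
  let T : Type u := V0 ⊕ ULift.{u} ℕ
  have hT : ℵ₀ ≤ #T := by
    show ℵ₀ ≤ #(V0 ⊕ ULift.{u} ℕ)
    rw [Cardinal.mk_sum]
    simp
  let I : Type u := Set (Set (Set T))
  have hI : (2 : Cardinal.{u}) ^ ((2 : Cardinal.{u}) ^ #T) < #I := by
    show (2 : Cardinal.{u}) ^ ((2 : Cardinal.{u}) ^ #T) < #(Set (Set (Set T)))
    rw [Cardinal.mk_set, Cardinal.mk_set, Cardinal.mk_set]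
    exact Cardinal.cantor _
  obtain ⟨V, X, hX, he⟩ := huniv (Multiplicative (I →₀ ℤ))
  obtain ⟨W, Z, f, hf, hc⟩ := complete_subcontraction T hT I hI V X he
  refine hclosed X Y hX (isSubcontraction_of hf (SimpleGraph.IsContained.trans ?_ hc))
  refine ⟨⟨⟨(Sum.inl : V0 → T), ?_⟩, Sum.inl_injective⟩⟩
  intro a b hab
  exact fun h => hab.ne (Sum.inl_injective h)

end Pool.Agent.Results.MP_e19d8e_co.ContainsAllGraphs
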